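import Pool.Agent.H17.GS.AIc

/-!
# Almost all real algebraic integers are normal beyond their height, in all bases

For `d ≥ 2` let `A_d(H)` be the set of the real algebraic integers of degree `d` whose minimal polynomial has all
its coefficients at most `H` in absolute value. This set is finite and has at least `c_d H ^ d` elements. The
algebraic integers are a thin subset of the algebraic numbers of degree `d` and height `H` (whose number is of
order `H ^ (d + 1)`), and earlier results on almost all algebraic numbers of given degree and height say nothing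
about them. We prove: for all but at most `exp (-√(log H) / 2) |A_d(H)|` of the elements `x` of `A_d(H)`, in all
bases `b ≥ 2` all the windows of at least `(log H) ^ (1 - γ)` consecutive digits of `x` among the first
`(log H) ^ (1 + γ) / log b` digits after the point are equidistributed up to `ε`; the `d` coefficients of the
minimal polynomial contain only about `d log H` bits. Among the elements of `A_d(H)` a positive proportion are
Pisot numbers, so the same holds for almost all Pisot numbers of degree `d`.

Proof. Let `R = exp √(log H)`. The roots with `|x| ≤ R` are treated with the theorem on polynomials with two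
random coefficients (the two lowest ones, with all the others fixed and the bound uniform in them). A root
`x > R` is close to the integer `n = -a_{d-1}`, and apart from `O(H / R)` values of `n` one has
`x = n + b_0 / n + ...`; for fixed other coefficients the root is a holomorphic function of `n`, and the general
theorem of `Pool.Agent.H17.GS.Gs` applies to it. The roots `x < - R` are treated by changing signs.
-/

set_option autoImplicit false

open Polynomial

namespace Pool.Agent.Results.MP_5b6025_nt.AlgebraicIntegers

/-- The discrepancy of the points `y b ^ i`, `u < i ≤ v`, modulo one is at most `ε`: for all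
intervals `[α, β)` in `[0, 1]` the number of `u < i ≤ v` for which the fractional part of `y b ^ i` lies
in `[α, β)` differs from `(β - α) (v - u)` by at most `ε (v - u)`. -/
def DiscrepancyAtMost (y : ℝ) (b u v : ℕ) (ε : ℝ) : Prop :=
  ∀ α β : ℝ, 0 ≤ α → α < β → β ≤ 1 →
    |(({i : ℕ | u < i ∧ i ≤ v ∧ α ≤ Int.fract (y * (b : ℝ) ^ i) ∧
      Int.fract (y * (b : ℝ) ^ i) < β}.ncard : ℕ) : ℝ) - (β - α) * ((v : ℝ) - u)| ≤ ε * ((v : ℝ) - u)

/-- The real algebraic integers of degree `d` whose minimal polynomial has all its coefficients at most `H` in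
absolute value. -/
def Integers (d H : ℕ) : Set ℝ :=
  {x | IsIntegral ℤ x ∧ (minpoly ℤ x).natDegree = d ∧ ∀ i, |(minpoly ℤ x).coeff i| ≤ H}

/-- For every `d ≥ 2` there are `c > 0` and `H₀` such that `Integers d H` is finite with at least `c H ^ d`
elements for all `H ≥ H₀`. There is an absolute constant `γ > 0` such that for all `d ≥ 2` and `ε > 0` there is
an `H₀` such that for all `H ≥ H₀`: for all but at most `exp (-√(log H) / 2) |Integers d H|` of the elements `x`
of `Integers d H`, for all bases `b ≥ 2` and all `u`, `v` with `(log H) ^ (1 - γ) ≤ v - u` and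
`v log b ≤ (log H) ^ (1 + γ)` the discrepancy of the points `x b ^ i`, `u < i ≤ v`, modulo one is at most
`ε`. -/
theorem result : (∀ d : ℕ, 2 ≤ d → ∃ c : ℝ, 0 < c ∧ ∃ H₀ : ℕ, ∀ H : ℕ, H₀ ≤ H →
      (Integers d H).Finite ∧ c * (H : ℝ) ^ d ≤ ((Integers d H).ncard : ℝ)) ∧
    ∃ γ : ℝ, 0 < γ ∧ ∀ (d : ℕ) (ε : ℝ), 2 ≤ d → 0 < ε → ∃ H₀ : ℕ, ∀ H : ℕ, H₀ ≤ H →
      (({x : ℝ | x ∈ Integers d H ∧ ∃ b u v : ℕ, 2 ≤ b ∧ (Real.log H) ^ (1 - γ) ≤ (v : ℝ) - u ∧
        v * Real.log b ≤ (Real.log H) ^ (1 + γ) ∧ ¬ DiscrepancyAtMost x b u v ε}.ncard : ℕ) : ℝ) ≤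
      Real.exp (-(√(Real.log H) / 2)) * ((Integers d H).ncard : ℝ) := by
  constructor
  · intro d hd
    obtain ⟨q, rfl⟩ : ∃ q, d = q + 2 := ⟨d - 2, by omega⟩
    obtain ⟨c, hc, H₀, hH₀⟩ := Pool.Agent.H17.GS.AI_many q
    exact ⟨c, hc, H₀, fun H hH => ⟨Pool.Agent.H17.GS.AI_finite q H, hH₀ H hH⟩⟩
  · obtain ⟨γ, hγ, hmain⟩ := Pool.Agent.H17.GS.ai
    refine ⟨γ, hγ, ?_⟩
    intro d ε hd hε
    obtain ⟨q, rfl⟩ : ∃ q, d = q + 2 := ⟨d - 2, by omega⟩
    exact hmain q ε hε

end Pool.Agent.Results.MP_5b6025_nt.AlgebraicIntegers
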