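import Pool.Agent.H17.GS.Cyc2

/-!
# The digits of almost all conjugates of `2 cos (2 π / n)`, in all bases at once

The algebraic integer `2 cos (2 π / n)` has the conjugates `2 cos (2 π k / n)`, `k` prime to `n`; it generates
the maximal real subfield of the cyclotomic field of order `n`, and its degree `φ(n) / 2` tends to infinity. We
show that all but at most `n exp (-(log n) ^ (1 / 10))` of the numbers `2 cos (2 π k / n)`, `1 ≤ k ≤ n`, have the
following property: in all bases `b ≥ 2`, all windows of at least `(log n) ^ (1 - γ)` consecutive digits among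
the first `(log n) ^ (1 + γ) / log b` digits after the point are equidistributed up to `ε`. Since
`φ(n) ≥ n / (1 + log_2 n)`, this holds for almost all conjugates of `2 cos (2 π / n)`. The numbers are given by
`2 log n` bits (by `k` and `n`), so the theorem goes beyond the digits which can be prescribed. More generally
the same is true, uniformly in `ω`, `φ` and `β`, for the numbers `β + ω cos (2 π k / n + φ)` (for instance for
the sines), for the digits from the place on where `b ^ u |ω| ≥ 1`.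

All earlier results on random algebraic numbers concern numbers of fixed degree or roots of integers or values
of algebraic functions of one variable at integers.

Proof. Let `η = exp (-(log n) ^ (1 / 8))`. The `k` for which the sine or the cosine of `2 π k / n + φ` is small
(about `η`) are thrown away, and the others are divided into segments of about `η ^ 2 n` numbers. All the
derivatives of the cosine are large there, with a loss of `exp ((log n) ^ (1 / 4))` for the derivatives of order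
up to `(log n) ^ (1 / 20)`, which is allowed in the method of Vinogradov and Korobov
(`Pool.Agent.H17.GS.range_bd2`); the mean values of Riesz products give the digits
(`Pool.Agent.H17.GS.core`).
-/

set_option autoImplicit false

namespace Pool.Agent.Results.MP_5b6025_nt.CosinesOfRationalAngles

/-- The discrepancy of the points `y b ^ i`, `u < i ≤ v`, modulo one is at most `ε`: for all
intervals `[α, β)` in `[0, 1]` the number of `u < i ≤ v` for which the fractional part of `y b ^ i` lies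
in `[α, β)` differs from `(β - α) (v - u)` by at most `ε (v - u)`. -/
def DiscrepancyAtMost (y : ℝ) (b u v : ℕ) (ε : ℝ) : Prop :=
  ∀ α β : ℝ, 0 ≤ α → α < β → β ≤ 1 →
    |(({i : ℕ | u < i ∧ i ≤ v ∧ α ≤ Int.fract (y * (b : ℝ) ^ i) ∧
      Int.fract (y * (b : ℝ) ^ i) < β}.ncard : ℕ) : ℝ) - (β - α) * ((v : ℝ) - u)| ≤ ε * ((v : ℝ) - u)

/-- There is an absolute constant `γ > 0` such that for all `ε > 0` there is an `n₀` such that for all `n ≥ n₀`,
all real `ω ≠ 0` with `|ω| ≤ exp ((log n) ^ (1 + γ))` and all real `φ` and `β`: all but at most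
`n exp (-(log n) ^ (1 / 10))` of the integers `1 ≤ k ≤ n` have this property: for all bases `b ≥ 2` and all `u`,
`v` with `(log n) ^ (1 - γ) ≤ v - u`, `v log b ≤ (log n) ^ (1 + γ)` and `1 ≤ |ω| b ^ u` the discrepancy of the
points `(β + ω cos (2 π k / n + φ)) b ^ i`, `u < i ≤ v`, modulo one is at most `ε`. -/
theorem result : ∃ γ : ℝ, 0 < γ ∧ ∀ ε : ℝ, 0 < ε → ∃ n₀ : ℕ, ∀ n : ℕ, n₀ ≤ n → ∀ ω φ β : ℝ, ω ≠ 0 →
    |ω| ≤ Real.exp ((Real.log n) ^ (1 + γ)) →
      (({k : ℕ | 1 ≤ k ∧ k ≤ n ∧ ∃ b u v : ℕ, 2 ≤ b ∧ (Real.log n) ^ (1 - γ) ≤ (v : ℝ) - u ∧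
        v * Real.log b ≤ (Real.log n) ^ (1 + γ) ∧ 1 ≤ |ω| * (b : ℝ) ^ u ∧
        ¬ DiscrepancyAtMost (β + ω * Real.cos (2 * Real.pi * k / n + φ)) b u v ε}.ncard : ℕ) : ℝ) ≤
      n * Real.exp (-(Real.log n) ^ (1 / 10 : ℝ)) := by
  obtain ⟨γ, hγ, hmain⟩ := Pool.Agent.H17.GS.cyc
  refine ⟨γ, hγ, ?_⟩
  intro ε hε
  obtain ⟨n₀, hn₀⟩ := hmain ε hε
  refine ⟨n₀, ?_⟩
  intro n hn ω φ β hω hωle
  refine le_trans (le_of_eq ?_) (hn₀ n hn ω φ β hω hωle)
  have e1 : ∀ k : ℕ, 2 * Real.pi * (k : ℝ) / n = 2 * Real.pi / n * k := by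
    intro k
    ring
  simp only [e1]
  rfl

/-- Special case: the conjugates `2 cos (2 π k / n)` of `2 cos (2 π / n)`. -/
theorem conjugates : ∃ γ : ℝ, 0 < γ ∧ ∀ ε : ℝ, 0 < ε → ∃ n₀ : ℕ, ∀ n : ℕ, n₀ ≤ n →
      (({k : ℕ | 1 ≤ k ∧ k ≤ n ∧ ∃ b u v : ℕ, 2 ≤ b ∧ (Real.log n) ^ (1 - γ) ≤ (v : ℝ) - u ∧
        v * Real.log b ≤ (Real.log n) ^ (1 + γ) ∧
        ¬ DiscrepancyAtMost (2 * Real.cos (2 * Real.pi * k / n)) b u v ε}.ncard : ℕ) : ℝ) ≤
      n * Real.exp (-(Real.log n) ^ (1 / 10 : ℝ)) := by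
  obtain ⟨γ, hγ, hmain⟩ := result
  refine ⟨γ, hγ, ?_⟩
  intro ε hε
  obtain ⟨n₀, hn₀⟩ := hmain ε hε
  refine ⟨max n₀ 3, ?_⟩
  intro n hn
  have hn3 : 3 ≤ n := (le_max_right _ _).trans hn
  have hlog : 1 ≤ Real.log n := by
    rw [Real.le_log_iff_exp_le (by exact_mod_cast (by omega : 0 < n))]
    have h1 := Real.exp_one_lt_d9
    have h2 : (3 : ℝ) ≤ n := by exact_mod_cast hn3
    linarith
  have h2 : |(2 : ℝ)| ≤ Real.exp ((Real.log n) ^ (1 + γ)) := by
    have h3 : 1 ≤ (Real.log n) ^ (1 + γ) := Real.one_le_rpow hlog (by linarith)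
    have h4 := Real.exp_le_exp.2 h3
    have h5 := Real.exp_one_gt_d9
    rw [abs_of_pos (by norm_num)]
    linarith
  have h := hn₀ n ((le_max_left _ _).trans hn) 2 0 0 (by norm_num) h2
  refine le_trans ?_ h
  refine Nat.cast_le.2 (Set.ncard_le_ncard ?_ ((Set.finite_Icc 0 n).subset fun k hk => ⟨Nat.zero_le _, hk.2.1⟩))
  rintro k ⟨h1, h2, b, u, v, w1, w2, w3, w4⟩
  refine ⟨h1, h2, b, u, v, w1, w2, w3, ?_, ?_⟩
  · rw [abs_of_pos (by norm_num)]
    have : (1 : ℝ) ≤ (b : ℝ) ^ u := one_le_pow₀ (by exact_mod_cast (by omega : 1 ≤ b))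
    linarith
  · rw [add_zero, zero_add]
    exact w4

end Pool.Agent.Results.MP_5b6025_nt.CosinesOfRationalAngles
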