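import Mathlib
import Pool.Agent.H41.NL.K

/-! # Numbers algebraic over a field generated by a number with very few nonzero digits -/

set_option autoImplicit false

open Filter Topology

namespace Pool.Agent.Results.MP_5b6025_nt.FieldsOfSparseNumbers

/-- `x` is normal in base `b`: every block `w` of `k ≥ 1` digits occurs with the limiting frequency
`1 / b ^ k` among the base `b` digits `⌊x b ^ (i+1)⌋ mod b`, `i ≥ 0`, of `x`. -/
def NormalIn (b : ℕ) (x : ℝ) : Prop :=
  ∀ k : ℕ, 0 < k → ∀ w : Fin k → Fin b,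
    Tendsto (fun n : ℕ => (((Finset.range n).filter
      (fun i : ℕ => ∀ j : Fin k, ⌊x * (b : ℝ) ^ (i + (j : ℕ) + 1)⌋ % (b : ℤ) = (((w j : ℕ)) : ℤ))).card : ℝ) /
        (n : ℝ)) atTop (𝓝 ((1 : ℝ) / (b : ℝ) ^ k))

/-- `x` is normal in every base. -/
def AbsolutelyNormal (x : ℝ) : Prop := ∀ b : ℕ, 2 ≤ b → NormalIn b x

/-- The number with the base `b` digit one at the place `j + 1` for the `j` in `A` and the digit zero
at all other places. -/
noncomputable def ones (b : ℕ) (A : Set ℕ) : ℝ := ∑' j, A.indicator (fun j => 1 / (b : ℝ) ^ (j + 1)) j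

lemma normal_iff (b : ℕ) (x : ℝ) : NormalIn b x ↔ H41.SW.Normal b x := by
  unfold NormalIn H41.SW.Normal H41.SW.digit
  exact Iff.rfl

lemma absolutely_of (y : ℝ) (h : H41.NL.AW y) : AbsolutelyNormal y := by
  intro b hb
  rw [normal_iff]
  exact H41.SW.normal_of b hb y (h b hb)

/-- **Theorem.** (1) For every countable field `k` of real numbers and every `ε > 0` there is a set `A`
of natural numbers with at most `N ^ (1/2 + ε)` elements below `N` (for all large `N`) such that for every
`b ≥ 2` the number `β = ∑ b ^ (-j-1)`, the sum over the `j` in `A`, is transcendental over `k` and every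
real number `y` algebraic over `k(β)` is normal in every base, unless `y = p + q β` with `p`, `q`
algebraic over `k`.
(2) The exponent `1/2` is optimal: if the number of elements of `A` below `N` is not at least `c √N` for
some `c > 0` and all large `N`, then `β ^ 2` is not normal in base `b`, for every `b ≥ 2`. -/
theorem result :
    (∀ k : Subfield ℝ, (k : Set ℝ).Countable → ∀ ε : ℝ, 0 < ε → ∃ A : Set ℕ,
      (∀ᶠ N : ℕ in atTop, ((A ∩ Set.Iio N).ncard : ℝ) ≤ (N : ℝ) ^ (1 / 2 + ε)) ∧
      ∀ b : ℕ, 2 ≤ b → Transcendental k (ones b A) ∧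
        ∀ y : ℝ, IsAlgebraic (IntermediateField.adjoin k {ones b A}) y →
          (∃ p q : ℝ, IsAlgebraic k p ∧ IsAlgebraic k q ∧ y = p + q * ones b A) ∨ AbsolutelyNormal y) ∧
    (∀ A : Set ℕ, (∀ ε : ℝ, 0 < ε → ∃ᶠ N : ℕ in atTop, ((A ∩ Set.Iio N).ncard : ℝ) ^ 2 ≤ ε * N) →
      ∀ b : ℕ, 2 ≤ b → ¬ NormalIn b ((ones b A) ^ 2)) := by
  constructor
  · intro k hk ε hε
    have hc : Countable k := hk.to_subtype
    obtain ⟨A, h1, h2⟩ := H41.NL.exists_half k ε hε
    refine ⟨A, h1, fun b hb => ?_⟩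
    obtain ⟨h3, h4⟩ := h2 b hb
    refine ⟨h3, fun y hy => ?_⟩
    rcases h4 y hy with h5 | h5
    · exact Or.inl h5
    · exact Or.inr (absolutely_of y h5)
  · intro A hA b hb hn
    exact H41.NL.square_not_normal b hb A hA ((normal_iff b _).1 hn)

end Pool.Agent.Results.MP_5b6025_nt.FieldsOfSparseNumbers
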