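import Pool.Agent.H17.Sal.E

/-!
# Almost all Salem numbers are normal beyond their size, in all bases

A Salem number is a real algebraic integer `τ > 1` whose other conjugates have absolute value at most one, at
least one of them lying on the unit circle; its degree is even and at least four. The Salem numbers of degree
`2 m` up to `X` are determined by `m` integers of size `O(X)`, and we prove that there are at least `c_m X ^ m`
of them; they are a negligible part of the algebraic integers of degree `2 m` and height `O(X)`, whose number is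
of order `X ^ (2 m)`, and no result on almost all algebraic numbers or algebraic integers of given degree and
height says anything about them. We prove: in all bases `b ≥ 2`, for almost all Salem numbers of degree `2 m` up
to `X` all the windows of at least `(log X) ^ (1 - γ)` consecutive digits among the first
`(log X) ^ (1 + γ) / log b` digits after the point are equidistributed up to `ε`.

Proof. Let `η = τ + 1 / τ`. The conjugates of `η` other than `η` are real and lie in `(-2, 2)`, so `η` is close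
to `n`, the trace of `η`, and its minimal polynomial `x ^ m - n x ^ (m - 1) - b_0 x ^ (m - 2) - ...` has
coefficients `O(X)`. For fixed `b_0, b_1, ...` (with `b_0` not too small) `η` and `τ = (η + √(η² - 4)) / 2` are
holomorphic functions of `n` and `τ - n` is close to `b_0 / n`, and the general theorem of
`Pool.Agent.H17.GS.Gs` (mean values of Riesz products, exponential sums with the method of Vinogradov and
Korobov) applies. For the lower bound we take Eisenstein polynomials close to
`x ^ m - n ∏ (x - c_i)` with fixed `c_i ∈ (-2, 2)`.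
-/

set_option autoImplicit false

open Polynomial

namespace Pool.Agent.Results.MP_5b6025_nt.SalemNumbers

/-- The discrepancy of the points `y b ^ i`, `u < i ≤ v`, modulo one is at most `ε`: for all
intervals `[α, β)` in `[0, 1]` the number of `u < i ≤ v` for which the fractional part of `y b ^ i` lies
in `[α, β)` differs from `(β - α) (v - u)` by at most `ε (v - u)`. -/
def DiscrepancyAtMost (y : ℝ) (b u v : ℕ) (ε : ℝ) : Prop :=
  ∀ α β : ℝ, 0 ≤ α → α < β → β ≤ 1 →
    |(({i : ℕ | u < i ∧ i ≤ v ∧ α ≤ Int.fract (y * (b : ℝ) ^ i) ∧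
      Int.fract (y * (b : ℝ) ^ i) < β}.ncard : ℕ) : ℝ) - (β - α) * ((v : ℝ) - u)| ≤ ε * ((v : ℝ) - u)

/-- A Salem number: a real algebraic integer `τ > 1` whose other complex conjugates (roots of the minimal
polynomial) have absolute value at most one, at least one of them having absolute value one. -/
def IsSalem (τ : ℝ) : Prop :=
  1 < τ ∧ IsIntegral ℤ τ ∧ (∀ z : ℂ, aeval z (minpoly ℤ τ) = 0 → z ≠ τ → ‖z‖ ≤ 1) ∧
    ∃ z : ℂ, aeval z (minpoly ℤ τ) = 0 ∧ ‖z‖ = 1

/-- The Salem numbers of degree `d` which are at most `X`. -/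
def Salem (d X : ℕ) : Set ℝ := {τ | IsSalem τ ∧ (minpoly ℤ τ).natDegree = d ∧ τ ≤ X}

/-- For every `m ≥ 2` there are `c > 0` and `X₀` such that `Salem (2 m) X` is finite with at least `c X ^ m`
elements for all `X ≥ X₀`. There is an absolute constant `γ > 0` such that for all `m ≥ 2` and `ε > 0` there is
an `X₀` such that for all `X ≥ X₀`: for all but at most `exp (-√(log X)) |Salem (2 m) X|` of the elements `τ` of
`Salem (2 m) X`, for all bases `b ≥ 2` and all `u`, `v` with `(log X) ^ (1 - γ) ≤ v - u` and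
`v log b ≤ (log X) ^ (1 + γ)` the discrepancy of the points `τ b ^ i`, `u < i ≤ v`, modulo one is at most
`ε`. -/
theorem result : (∀ m : ℕ, 2 ≤ m → ∃ c : ℝ, 0 < c ∧ ∃ X₀ : ℕ, ∀ X : ℕ, X₀ ≤ X →
      (Salem (2 * m) X).Finite ∧ c * (X : ℝ) ^ m ≤ ((Salem (2 * m) X).ncard : ℝ)) ∧
    ∃ γ : ℝ, 0 < γ ∧ ∀ (m : ℕ) (ε : ℝ), 2 ≤ m → 0 < ε → ∃ X₀ : ℕ, ∀ X : ℕ, X₀ ≤ X →
      (({τ : ℝ | τ ∈ Salem (2 * m) X ∧ ∃ b u v : ℕ, 2 ≤ b ∧ (Real.log X) ^ (1 - γ) ≤ (v : ℝ) - u ∧
        v * Real.log b ≤ (Real.log X) ^ (1 + γ) ∧ ¬ DiscrepancyAtMost τ b u v ε}.ncard : ℕ) : ℝ) ≤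
      Real.exp (-√(Real.log X)) * ((Salem (2 * m) X).ncard : ℝ) := by
  constructor
  · intro m hm
    obtain ⟨q, rfl⟩ : ∃ q, m = q + 2 := ⟨m - 2, by omega⟩
    obtain ⟨c, hc, X₀, hX₀⟩ := Pool.Agent.H17.Sal.Sal_many q
    exact ⟨c, hc, X₀, fun X hX => ⟨Pool.Agent.H17.Sal.Sal_finite q X, hX₀ X hX⟩⟩
  · obtain ⟨γ, hγ, hmain⟩ := Pool.Agent.H17.Sal.salem
    refine ⟨γ, hγ, ?_⟩
    intro m ε hm hε
    obtain ⟨q, rfl⟩ : ∃ q, m = q + 2 := ⟨m - 2, by omega⟩
    exact hmain q ε hε

end Pool.Agent.Results.MP_5b6025_nt.SalemNumbers
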